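import Pool.Agent.V117.VNum

/-! The local v-number of powers at a maximal stable prime can grow with any slope `≥ 2`, while the
initial degree is `2`. -/

namespace Pool.Agent.Results.MP_ad771b_al.MaxPrimeSlope

open MvPolynomial Pool.Agent.V117 Filter Topology

/-- The local v-number of an ideal `J` of the standard graded polynomial ring at `p`: the least
degree of a homogeneous `f` with `(J : f) = p`. -/
noncomputable def localVNumber {K : Type*} [Field K] {n : ℕ}
    (p J : Ideal (MvPolynomial (Fin n) K)) : ℕ :=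
  sInf {d : ℕ | ∃ f : MvPolynomial (Fin n) K, f.IsHomogeneous d ∧ J.colon {f} = p}

/-- The initial degree of an ideal: the least degree of a nonzero homogeneous element. -/
noncomputable def initialDegree {K : Type*} [Field K] {n : ℕ}
    (I : Ideal (MvPolynomial (Fin n) K)) : ℕ :=
  sInf {d : ℕ | ∃ f ∈ I, f ≠ 0 ∧ f.IsHomogeneous d}

/-- The stable set of primes `Ass^∞(I)`: the primes associated to `I ^ k` for all large `k`. -/
def stablePrimes {K : Type*} [Field K] {n : ℕ} (I : Ideal (MvPolynomial (Fin n) K)) :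
    Set (Ideal (MvPolynomial (Fin n) K)) :=
  {q | ∀ᶠ k : ℕ in atTop, q ∈ Submodule.associatedPrimes (I ^ k)}

/-- Exponents of the monomials in `I^k`. -/
def eS (s k : ℕ) : Set (Fin 3 →₀ ℕ) := {m | k ≤ m 0 + m 1 ∧ 2 * k ≤ m 1 + m 2 / s}

/-- Exponents of the monomials in `(x,y)`. -/
def eP (k : ℕ) : Set (Fin 3 →₀ ℕ) := {m | k ≤ m 0 + m 1}

/-- Exponents of the monomials in `(y,z^s)^k`. -/
def eQ (s k : ℕ) : Set (Fin 3 →₀ ℕ) := {m | k ≤ m 1 + m 2 / s}

theorem degree_three (m : Fin 3 →₀ ℕ) : m.degree = m 0 + m 1 + m 2 := by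
  rw [Finsupp.degree_eq_sum, Fin.sum_univ_three]

theorem upper_eS (s k : ℕ) : IsUpperSet (eS s k) := by
  intro a b hab ha
  have h0 := hab 0
  have h1 := hab 1
  have h2 := Nat.div_le_div_right (c := s) (hab 2)
  simp only [eS, Set.mem_ofPred_eq] at ha ⊢
  omega

theorem upper_eP (k : ℕ) : IsUpperSet (eP k) := by
  intro a b hab ha
  have h0 := hab 0
  have h1 := hab 1
  simp only [eP, Set.mem_ofPred_eq] at ha ⊢
  omega

theorem upper_eQ (s k : ℕ) : IsUpperSet (eQ s k) := by
  intro a b hab ha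
  have h1 := hab 1
  have h2 := Nat.div_le_div_right (c := s) (hab 2)
  simp only [eQ, Set.mem_ofPred_eq] at ha ⊢
  omega

variable {K : Type*} [Field K]

theorem div_sub (s t : ℕ) (hs : 1 ≤ s) (h : s ≤ t) : (t - s) / s + 1 = t / s := by
  obtain ⟨u, rfl⟩ := Nat.exists_eq_add_of_le h
  rw [Nat.add_sub_cancel_left, Nat.add_div_left _ hs]

theorem pow_eq (s : ℕ) (hs : 1 ≤ s) (k : ℕ) : (upIdeal K (eS s 1)) ^ k = upIdeal K (eS s k) := by
  induction k with
  | zero =>
    rw [pow_zero, Ideal.one_eq_top, eq_comm, Ideal.eq_top_iff_one]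
    have : (1 : MvPolynomial (Fin 3) K) = monomial 0 1 := rfl
    rw [this, monomial_mem_upIdeal (upper_eS s 0) one_ne_zero]
    simp [eS]
  | succ k ih =>
    rw [pow_succ, ih]
    apply upIdeal_mul
    · intro p hp q hq
      simp only [eS, Set.mem_ofPred_eq, Finsupp.add_apply] at hp hq ⊢
      have : p 2 / s + q 2 / s ≤ (p 2 + q 2) / s := Nat.div_add_div_le_add_div
      omega
    · intro r hr
      simp only [eS, Set.mem_ofPred_eq] at hr
      obtain ⟨hr1, hr2⟩ := hr
      -- a general way to conclude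
      have key : ∀ a b c : ℕ, a ≤ r 0 → b ≤ r 1 → c ≤ r 2 → 1 ≤ a + b → 2 ≤ b + c / s →
          k ≤ (r 0 - a) + (r 1 - b) → 2 * k ≤ (r 1 - b) + (r 2 - c) / s →
          ∃ p ∈ eS s k, ∃ q ∈ eS s 1, p + q ≤ r := by
        intro a b c ha hb hc h1 h2 h3 h4
        refine ⟨Finsupp.equivFunOnFinite.symm ![r 0 - a, r 1 - b, r 2 - c], ?_,
          Finsupp.equivFunOnFinite.symm ![a, b, c], ?_, ?_⟩
        · simp only [eS, Set.mem_ofPred_eq]
          simp
          exact ⟨h3, h4⟩
        · simp only [eS, Set.mem_ofPred_eq]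
          simp
          exact ⟨h1, h2⟩
        · intro j
          fin_cases j
          · simp; omega
          · simp; omega
          · simp; omega
      by_cases hz : s ≤ r 2
      · by_cases hy : 1 ≤ r 1
        · -- use `y z^s`
          have hd := div_sub s (r 2) hs hz
          have hss : s / s = 1 := Nat.div_self hs
          apply key 0 1 s <;> omega
        · -- use `x z^(2s)`
          have h2s : 2 * s ≤ r 2 := by
            have : 2 ≤ r 2 / s := by omega
            rw [Nat.le_div_iff_mul_le hs] at this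
            exact this
          have hd := div_sub s (r 2) hs hz
          have hd2 := div_sub s (r 2 - s) hs (by omega)
          have hd3 : r 2 - 2 * s = r 2 - s - s := by omega
          have hss : (2 * s) / s = 2 := Nat.mul_div_cancel _ hs
          have hkey := key 1 0 (2 * s)
          rw [hd3] at hkey
          apply hkey <;> omega
      · -- use `y^2`
        have hd : r 2 / s = 0 := Nat.div_eq_of_lt (by omega)
        have hz0 : 0 / s = 0 := Nat.zero_div s
        have hkey := key 0 2 0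
        simp only [tsub_zero] at hkey
        apply hkey <;> omega

theorem eS_le_eP (s k : ℕ) : upIdeal K (eS s k) ≤ upIdeal K (eP k) := by
  intro f hf
  rw [mem_upIdeal (upper_eS s k)] at hf
  rw [mem_upIdeal (upper_eP k)]
  exact fun m hm => (hf m hm).1

theorem eS_le_eQ (s k : ℕ) : upIdeal K (eS s k) ≤ upIdeal K (eQ s (2 * k)) := by
  intro f hf
  rw [mem_upIdeal (upper_eS s k)] at hf
  rw [mem_upIdeal (upper_eQ s (2 * k))]
  exact fun m hm => (hf m hm).2

theorem mem_eS {s k : ℕ} {f : MvPolynomial (Fin 3) K} (h1 : f ∈ upIdeal K (eP k))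
    (h2 : f ∈ upIdeal K (eQ s (2 * k))) : f ∈ upIdeal K (eS s k) := by
  rw [mem_upIdeal (upper_eP k)] at h1
  rw [mem_upIdeal (upper_eQ s (2 * k))] at h2
  rw [mem_upIdeal (upper_eS s k)]
  exact fun m hm => ⟨h1 m hm, h2 m hm⟩

theorem mem_eQ_of_X {s k : ℕ} {f : MvPolynomial (Fin 3) K}
    (h : X 0 * f ∈ upIdeal K (eS s k)) : f ∈ upIdeal K (eQ s (2 * k)) := by
  refine mem_of_mul_mem (upper_eQ s (2 * k)) (h := X 0) (X_ne_zero _) ?_ (eS_le_eQ s k h)
  intro a ha b hb
  have ha' := support_monomial_subset ha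
  rw [Finset.mem_singleton] at ha'
  subst ha'
  simp only [eQ, Set.mem_ofPred_eq, Finsupp.add_apply] at hb ⊢
  simpa using hb

/-- The witness: `y^(k-1) z^(s(k+1))`. -/
noncomputable def wit (s k : ℕ) : Fin 3 →₀ ℕ :=
  Finsupp.equivFunOnFinite.symm ![0, k - 1, s * (k + 1)]

theorem colon_wit (s : ℕ) (hs : 1 ≤ s) (k : ℕ) (hk : 1 ≤ k) :
    (upIdeal K (eS s k)).colon {monomial (wit s k) (1 : K)} = upIdeal K (eP 1) := by
  classical
  have hdiv : s * (k + 1) / s = k + 1 := Nat.mul_div_cancel_left _ hs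
  ext g
  rw [Submodule.mem_colon_singleton, smul_eq_mul]
  constructor
  · intro h
    rw [mem_upIdeal (upper_eP 1)]
    intro m hm
    have h1 := (mem_upIdeal (upper_eS s k)).mp h (m + wit s k) (by
      rw [mem_support_iff, coeff_mul_monomial, mul_one]
      exact mem_support_iff.mp hm)
    simp only [eS, eP, wit, Set.mem_ofPred_eq, Finsupp.add_apply] at h1 ⊢
    simp at h1
    omega
  · intro h
    rw [mem_upIdeal (upper_eP 1)] at h
    rw [mem_upIdeal (upper_eS s k)]
    intro m hm
    have h2 := MvPolynomial.support_mul _ _ hm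
    rw [Finset.mem_add] at h2
    obtain ⟨a, ha, b, hb, rfl⟩ := h2
    have hb' := support_monomial_subset hb
    rw [Finset.mem_singleton] at hb'
    subst hb'
    have h3 := h a ha
    have h4 : a 2 / s + (s * (k + 1)) / s ≤ (a 2 + s * (k + 1)) / s :=
      Nat.div_add_div_le_add_div
    rw [hdiv] at h4
    have h6 : k + 1 ≤ (a 2 + s * (k + 1)) / s := le_trans (Nat.le_add_left _ _) h4
    simp only [eS, eP, wit, Set.mem_ofPred_eq, Finsupp.add_apply] at h3 ⊢
    simp
    omega

theorem localVNumber_eq (s : ℕ) (hs : 1 ≤ s) (k : ℕ) (hk : 1 ≤ k) :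
    localVNumber (upIdeal K (eP 1)) (upIdeal K (eS s k)) = (s + 1) * k + s - 1 := by
  classical
  have hmem : ((s + 1) * k + s - 1) ∈ {d : ℕ | ∃ f : MvPolynomial (Fin 3) K,
      f.IsHomogeneous d ∧ (upIdeal K (eS s k)).colon {f} = upIdeal K (eP 1)} := by
    refine ⟨monomial (wit s k) 1, isHomogeneous_monomial _ ?_, colon_wit s hs k hk⟩
    rw [degree_three]
    simp [wit]
    obtain ⟨j, rfl⟩ := Nat.exists_eq_add_of_le hk
    ring_nf
    omega
  apply le_antisymm (Nat.sInf_le hmem)
  apply le_csInf ⟨_, hmem⟩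
  rintro d ⟨f, hf, hcol⟩
  have hX : X 0 * f ∈ upIdeal K (eS s k) := by
    have : (X 0 : MvPolynomial (Fin 3) K) ∈ upIdeal K (eP 1) := by
      rw [X, monomial_mem_upIdeal (upper_eP 1) one_ne_zero]
      simp [eP]
    rw [← hcol, Submodule.mem_colon_singleton, smul_eq_mul] at this
    exact this
  have hQ := mem_eQ_of_X hX
  have hfn : f ∉ upIdeal K (eP k) := by
    intro hfm
    have h1 : (1 : MvPolynomial (Fin 3) K) ∈ upIdeal K (eP 1) := by
      rw [← hcol, Submodule.mem_colon_singleton, smul_eq_mul, one_mul]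
      exact mem_eS hfm hQ
    have : (1 : MvPolynomial (Fin 3) K) = monomial 0 1 := rfl
    rw [this, monomial_mem_upIdeal (upper_eP 1) one_ne_zero] at h1
    simp [eP] at h1
  rw [mem_upIdeal (upper_eP k)] at hfn
  push Not at hfn
  obtain ⟨m, hm, hmP⟩ := hfn
  have hmQ := (mem_upIdeal (upper_eQ s (2 * k))).mp hQ m hm
  have hdeg : m.degree = d := by
    by_contra hne
    exact (mem_support_iff.mp hm) (hf.coeff_eq_zero hne)
  rw [degree_three] at hdeg
  simp only [eP, eQ, Set.mem_ofPred_eq] at hmP hmQ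
  have h1 : (2 * k - m 1) ≤ m 2 / s := by omega
  rw [Nat.le_div_iff_mul_le hs] at h1
  obtain ⟨j, hj⟩ := Nat.exists_eq_add_of_le (show m 1 + 1 ≤ k by omega)
  have h2 : 2 * k - m 1 = m 1 + 2 + 2 * j := by omega
  rw [h2] at h1
  rw [← hdeg, hj]
  have h3 : (m 1 + 2 + 2 * j) * s = s * m 1 + 2 * s + 2 * (s * j) := by ring
  have h4 : (s + 1) * (m 1 + 1 + j) = s * m 1 + s + s * j + m 1 + 1 + j := by ring
  have h5 : j ≤ s * j := Nat.le_mul_of_pos_left j hs
  rw [h3] at h1
  rw [h4]
  omega

theorem result (K : Type*) [Field K] (c : ℕ) (hc : 2 ≤ c) :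
    ∃ I p : Ideal (MvPolynomial (Fin 3) K), I ≠ ⊥ ∧ I ≠ ⊤ ∧
      (∀ f ∈ I, ∀ d : ℕ, homogeneousComponent d f ∈ I) ∧
      initialDegree I = 2 ∧
      Maximal (fun q => q ∈ stablePrimes I) p ∧
      Tendsto (fun k : ℕ => (localVNumber p (I ^ k) : ℝ) / (k : ℝ)) atTop (𝓝 (c : ℝ)) := by
  classical
  obtain ⟨s, rfl⟩ : ∃ s, c = s + 1 := ⟨c - 1, by omega⟩
  have hs : 1 ≤ s := by omega
  have hU := upper_eS s 1
  have htop : ∀ k, 1 ≤ k → upIdeal K (eS s k) ≠ ⊤ := by
    intro k hk h
    have : monomial (0 : Fin 3 →₀ ℕ) (1 : K) ∈ upIdeal K (eS s k) := by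
      rw [h]; trivial
    rw [monomial_mem_upIdeal (upper_eS s k) one_ne_zero] at this
    simp [eS] at this
    omega
  have hprime : (upIdeal K (eP 1)).IsPrime := by
    apply upIdeal_isPrime (upper_eP 1)
    · simp [eP]
    · intro a ha b hb
      simp only [eP, Set.mem_ofPred_eq, Finsupp.add_apply] at ha hb ⊢
      omega
  refine ⟨upIdeal K (eS s 1), upIdeal K (eP 1), ?_, htop 1 le_rfl,
    fun f hf d => upIdeal_homogeneousComponent_mem hU hf d, ?_, ⟨?_, ?_⟩, ?_⟩
  · intro h
    have : monomial (Finsupp.single 1 2) (1 : K) ∈ upIdeal K (eS s 1) := by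
      rw [monomial_mem_upIdeal hU one_ne_zero]
      simp [eS]
    rw [h, Ideal.mem_bot, monomial_eq_zero] at this
    exact one_ne_zero this
  · have hmem : 2 ∈ {d : ℕ | ∃ f ∈ upIdeal K (eS s 1), f ≠ 0 ∧ f.IsHomogeneous d} := by
      refine ⟨monomial (Finsupp.single 1 2) 1, ?_, ?_, isHomogeneous_monomial _ (by simp)⟩
      · rw [monomial_mem_upIdeal hU one_ne_zero]
        simp [eS]
      · rw [Ne, monomial_eq_zero]
        exact one_ne_zero
    apply le_antisymm (Nat.sInf_le hmem)
    apply le_csInf ⟨_, hmem⟩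
    rintro d ⟨f, hf, hf0, hfd⟩
    obtain ⟨m, hm⟩ := Finset.nonempty_iff_ne_empty.mpr
      (fun h => hf0 (MvPolynomial.support_eq_empty.mp h))
    have h1 := (mem_upIdeal hU).mp hf m hm
    have hdeg : m.degree = d := by
      by_contra hne
      exact (mem_support_iff.mp hm) (hfd.coeff_eq_zero hne)
    rw [degree_three] at hdeg
    simp only [eS, Set.mem_ofPred_eq] at h1
    have := Nat.div_le_self (m 2) s
    omega
  · refine eventually_atTop.mpr ⟨1, fun k hk => ?_⟩
    rw [pow_eq s hs, ← colon_wit (K := K) s hs k hk, colon_mem_ass, colon_wit s hs k hk]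
    exact hprime
  · intro q hq hle
    obtain ⟨k0, hk0⟩ := eventually_atTop.mp hq
    obtain ⟨hqp, f, hqf⟩ := Submodule.isAssociatedPrime_iff.mp (hk0 (k0 + 1) (by omega))
    rw [pow_eq s hs] at hqf
    set k := k0 + 1 with hk
    intro g hg
    by_contra hgn
    obtain ⟨g', hg'P, -, hgg'⟩ := exists_bad_part (upper_eP 1) g
    have hg'q : g' ∈ q := by
      have : g' = g - (g - g') := by ring
      rw [this]
      exact Ideal.sub_mem _ hg (hle hgg')
    have hg'0 : g' ≠ 0 := by
      rintro rfl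
      rw [sub_zero] at hgg'
      exact hgn hgg'
    have h1 : f ∈ upIdeal K (eP k) := by
      refine mem_of_mul_mem (upper_eP k) (h := g') hg'0 ?_ ?_
      · intro a ha b hb
        have := hg'P a ha
        simp only [eP, Set.mem_ofPred_eq, Finsupp.add_apply] at this hb ⊢
        omega
      · rw [hqf, Submodule.mem_colon_singleton, smul_eq_mul] at hg'q
        exact eS_le_eP s k hg'q
    have h2 : f ∈ upIdeal K (eQ s (2 * k)) := by
      apply mem_eQ_of_X
      have : (X 0 : MvPolynomial (Fin 3) K) ∈ q := by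
        apply hle
        rw [X, monomial_mem_upIdeal (upper_eP 1) one_ne_zero]
        simp [eP]
      rwa [hqf, Submodule.mem_colon_singleton, smul_eq_mul] at this
    apply hqp.ne_top
    rw [Ideal.eq_top_iff_one, hqf, Submodule.mem_colon_singleton, smul_eq_mul, one_mul]
    exact mem_eS h1 h2
  · have heq : ∀ k : ℕ, 1 ≤ k →
        (localVNumber (upIdeal K (eP 1)) (upIdeal K (eS s 1) ^ k) : ℝ) / (k : ℝ) =
          ((s : ℝ) + 1) + ((s : ℝ) - 1) / (k : ℝ) := by
      intro k hk
      rw [pow_eq s hs, localVNumber_eq s hs k hk]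
      have hk' : (k : ℝ) ≠ 0 := by
        have : 0 < k := hk
        positivity
      rw [Nat.cast_sub (by nlinarith)]
      push_cast
      field_simp
      ring
    have hlim : Tendsto (fun k : ℕ => ((s : ℝ) + 1) + ((s : ℝ) - 1) / (k : ℝ)) atTop
        (𝓝 (((s : ℝ) + 1) + 0)) :=
      tendsto_const_nhds.add (tendsto_const_div_atTop_nhds_zero_nat _)
    rw [add_zero] at hlim
    push_cast
    refine hlim.congr' ?_
    filter_upwards [eventually_ge_atTop 1] with k hk
    exact (heq k hk).symm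

end Pool.Agent.Results.MP_ad771b_al.MaxPrimeSlope
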